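import Pool.Agent.H27.L1.H68.GHK.Targets
import Pool.Agent.H27.L1.H23.GHK.TRF

/-!
Board ghk (MP_52e316_nt), row IPT: the scalar product and the translates.
-/

set_option autoImplicit false

namespace Pool.Agent.H27.L1.H44.GHK

open MeasureTheory Filter Pool.Agent.H27.L1.H34.GM Pool.Agent.H27.L1.H34.GZ Pool.Agent.H27.L1.H34.GU Pool.Agent.H27.L1.H34.GA
  Pool.Agent.H27.L1.H68.GHK
open Pool.Agent.H27.L1.H90.GA (meas_F meas_F1 fin_D int_sq int_mul det_ne_D)
open Pool.Agent.H27.L1.H23.GHK (Ivf ivf_of ivf_tr trf_hec det_mul_ne intv_o)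

section basic

variable {m N : ℕ} [NeZero N] {T : ℕ → Finset (ZM m)} {D : Set (V m)}
  {F G : Mat m → VN m N → ℂ} {lam lam' : ℕ → ℂ}

omit [NeZero N] in
theorem rt_eq (u : Mat m) (F : Mat m → VN m N → ℂ) : rt u F = Pool.Agent.H27.L1.H23.GHK.tF u F := rfl

theorem ip_eq (D : Set (V m)) (F G : Mat m → VN m N → ℂ) :
    ip D F G = Pool.Agent.H27.L1.H23.GHK.ip D F G := rfl

/-- products are integrable -/
theorem ip_int (hVL : T_VLM) (hS : SysZ m N T D) (hF : Ivf F) (hG : Ivf G) (x : VN m N) :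
    Integrable (fun z : V m => F (mt z) x * (starRingEnd ℂ) (G (mt z) x))
      ((hm m).restrict D) := by
  have hfin := fin_D hVL hS.one_le hS.dom
  obtain ⟨A, hA⟩ := hF.bdd
  obtain ⟨B, hB⟩ := hG.bdd
  have h1 := meas_F1 hS.one_le hS.dom (hF.cont x)
  have h2 := meas_F1 hS.one_le hS.dom (hG.cont x)
  refine Integrable.of_bound (h1.mul (Complex.continuous_conj.comp_aestronglyMeasurable h2))
    (A * B) ?_
  refine (ae_restrict_iff' hS.dom.meas).2 (Eventually.of_forall fun z hz => ?_)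
  have hz1 := det_ne_D hS.one_le hS.dom hz
  rw [norm_mul, RCLike.norm_conj]
  exact mul_le_mul (hA _ x hz1) (hB _ x hz1) (norm_nonneg _) ((norm_nonneg _).trans (hA _ x hz1))

/-- the inequality of Cauchy and Schwarz -/
theorem ip_cs (hVL : T_VLM) (hS : SysZ m N T D) (hF : Ivf F) (hG : Ivf G) :
    ‖ip D F G‖ ^ 2 ≤ nU D F * nU D G := by
  obtain ⟨S, hSd⟩ : ∃ S : ℝ, S = ∑ x, ∫ z in D, ‖F (mt z) x‖ * ‖G (mt z) x‖ ∂(hm m) := ⟨_, rfl⟩
  have hint : ∀ x, Integrable (fun z : V m => ‖F (mt z) x‖ * ‖G (mt z) x‖)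
      ((hm m).restrict D) := by
    intro x
    have h := (ip_int hVL hS hF hG x).norm
    refine h.congr (Eventually.of_forall fun z => ?_)
    show ‖F (mt z) x * (starRingEnd ℂ) (G (mt z) x)‖ = _
    rw [norm_mul, RCLike.norm_conj]
  have h1 : ‖ip D F G‖ ≤ S := by
    rw [hSd]
    refine (norm_sum_le _ _).trans (Finset.sum_le_sum fun x _ => ?_)
    refine (norm_integral_le_integral_norm _).trans (le_of_eq ?_)
    refine integral_congr_ae (Eventually.of_forall fun z => ?_)
    show ‖F (mt z) x * (starRingEnd ℂ) (G (mt z) x)‖ = _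
    rw [norm_mul, RCLike.norm_conj]
  have h2 : ∀ t : ℝ, 0 ≤ nU D F * (t * t) + (-2 * S) * t + nU D G := by
    intro t
    have e : nU D F * (t * t) + (-2 * S) * t + nU D G =
        ∑ x, ∫ z in D, (t * ‖F (mt z) x‖ - ‖G (mt z) x‖) ^ 2 ∂(hm m) := by
      unfold nU
      rw [hSd, Finset.sum_mul, Finset.mul_sum, Finset.sum_mul, ← Finset.sum_add_distrib,
        ← Finset.sum_add_distrib]
      refine Finset.sum_congr rfl fun x _ => ?_
      have i1 := intv_o hVL hS hF x
      have i2 := intv_o hVL hS hG x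
      have i3 := hint x
      have e1 : (fun z : V m => (t * ‖F (mt z) x‖ - ‖G (mt z) x‖) ^ 2) =
          fun z : V m => ‖F (mt z) x‖ ^ 2 * (t * t) + (-2 * (‖F (mt z) x‖ * ‖G (mt z) x‖)) * t +
            ‖G (mt z) x‖ ^ 2 := by
        funext z
        ring
      rw [e1, integral_add, integral_add, integral_mul_const, integral_mul_const,
        integral_const_mul]
      · exact i1.mul_const _
      · exact (i3.const_mul _).mul_const _
      · exact (i1.mul_const _).add ((i3.const_mul _).mul_const _)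
      · exact i2
    rw [e]
    exact Finset.sum_nonneg fun x _ => integral_nonneg fun z => sq_nonneg _
  have h3 := discrim_le_zero h2
  unfold discrim at h3
  have h4 : ‖ip D F G‖ ^ 2 ≤ S ^ 2 := pow_le_pow_left₀ (norm_nonneg _) h1 2
  nlinarith [h3, h4]

/-- the norm -/
theorem ip_self (D : Set (V m)) (F : Mat m → VN m N → ℂ) : ip D F F = (nU D F : ℂ) := by
  unfold ip nU
  rw [Complex.ofReal_sum]
  refine Finset.sum_congr rfl fun x _ => ?_
  rw [← integral_complex_ofReal]
  refine integral_congr_ae (Eventually.of_forall fun z => ?_)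
  show F (mt z) x * (starRingEnd ℂ) (F (mt z) x) = _
  rw [Complex.mul_conj, Complex.normSq_eq_norm_sq]

/-- the symmetry -/
theorem ip_conj (D : Set (V m)) (F G : Mat m → VN m N → ℂ) :
    ip D G F = (starRingEnd ℂ) (ip D F G) := by
  unfold ip
  rw [map_sum]
  refine Finset.sum_congr rfl fun x _ => ?_
  rw [← integral_conj]
  refine integral_congr_ae (Eventually.of_forall fun z => ?_)
  show G (mt z) x * (starRingEnd ℂ) (F (mt z) x) =
    (starRingEnd ℂ) (F (mt z) x * (starRingEnd ℂ) (G (mt z) x))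
  rw [map_mul, Complex.conj_conj, mul_comm]

/-- the continuity -/
theorem ip_cont (hVL : T_VLM) (hS : SysZ m N T D) (hF : Ivf F) (hG : Ivf G) :
    ContinuousOn (fun p : V m × V m => ip D (rt (mt p.1) F) (rt (mt p.2) G))
      {p | (mt p.1).det ≠ 0 ∧ (mt p.2).det ≠ 0} := by
  have hfin := fin_D hVL hS.one_le hS.dom
  unfold ip
  refine continuousOn_finsetSum _ fun x _ => ?_
  obtain ⟨A, hA⟩ := hF.bdd
  obtain ⟨B, hB⟩ := hG.bdd
  refine continuousOn_of_dominated (bound := fun _ => A * B) ?_ ?_ (integrable_const _) ?_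
  · rintro ⟨u, v⟩ ⟨hu, hv⟩
    exact (ip_int hVL hS (ivf_tr hF hu) (ivf_tr hG hv) x).aestronglyMeasurable
  · rintro ⟨u, v⟩ ⟨hu, hv⟩
    refine (ae_restrict_iff' hS.dom.meas).2 (Eventually.of_forall fun z hz => ?_)
    have hz1 := det_ne_D hS.one_le hS.dom hz
    show ‖F (mt z * mt u) x * (starRingEnd ℂ) (G (mt z * mt v) x)‖ ≤ A * B
    rw [norm_mul, RCLike.norm_conj]
    exact mul_le_mul (hA _ x (det_mul_ne hz1 hu)) (hB _ x (det_mul_ne hz1 hv)) (norm_nonneg _)
      ((norm_nonneg _).trans (hA _ x (det_mul_ne hz1 hu)))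
  · refine (ae_restrict_iff' hS.dom.meas).2 (Eventually.of_forall fun z hz => ?_)
    have hz1 := det_ne_D hS.one_le hS.dom hz
    have hc1 : ContinuousOn (fun p : V m × V m => F (mt z * mt p.1) x)
        {p | (mt p.1).det ≠ 0 ∧ (mt p.2).det ≠ 0} := by
      refine ContinuousOn.comp (g := fun g : Mat m => F g x) (t := {g | g.det ≠ 0}) (hF.cont x)
        ?_ ?_
      · exact (continuous_const.matrix_mul
          ((Pool.Agent.H27.L1.H69.GA.cfa_mt m).comp continuous_fst)).continuousOn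
      · intro p hp
        exact det_mul_ne hz1 hp.1
    have hc2 : ContinuousOn (fun p : V m × V m => G (mt z * mt p.2) x)
        {p | (mt p.1).det ≠ 0 ∧ (mt p.2).det ≠ 0} := by
      refine ContinuousOn.comp (g := fun g : Mat m => G g x) (t := {g | g.det ≠ 0}) (hG.cont x)
        ?_ ?_
      · exact (continuous_const.matrix_mul
          ((Pool.Agent.H27.L1.H69.GA.cfa_mt m).comp continuous_snd)).continuousOn
      · intro p hp
        exact det_mul_ne hz1 hp.2
    exact hc1.mul (Complex.continuous_conj.comp_continuousOn hc2)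

end basic

/-- row IPT -/
theorem pf_IPT (hVL : T_VLM) (hRTI : T_RTI) (hALU : T_ALU) : T_IPT := by
  intro m N _ T D hS F G lam lam' hF hG
  have hF1 := ivf_of hF
  have hG1 := ivf_of hG
  refine ⟨fun w hw => ⟨trf_hec hF hw, Pool.Agent.H27.L1.H23.GHK.trf_nU hVL hRTI hALU hS hF hw,
    Pool.Agent.H27.L1.H23.GHK.ip_tr hVL hRTI hALU hS hF1 hG1 hw⟩, ip_cs hVL hS hF1 hG1, ip_self D F,
    ip_conj D F G, ip_cont hVL hS hF1 hG1⟩

end Pool.Agent.H27.L1.H44.GHK
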